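import Pool.Agent.Y442.MC.Par

/-!
# The strata of curves are irreducible
-/

set_option autoImplicit false
set_option linter.unusedSectionVars false
set_option linter.deprecated false

namespace Pool.Agent.Y442.MC

open Polynomial Pool.Agent.Y166.GM Pool.Agent.Y166.SM Pool.Agent.Y198.MC

/-! ### Degrees and top coefficients -/

section
variable {A : Type} [CommRing A] {N a b d : ℕ} {u v : Fin N → A[X]} {c : Fin 4 → A[X]}

theorem Bd.c0 (h : Bd a b d u v c) : c 0 ≠ 0 → (c 0).natDegree + 3 * a ≤ d := by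
  intro h0
  have := h.hc 0 h0
  simp at this
  omega

theorem Bd.c1 (h : Bd a b d u v c) : c 1 ≠ 0 → (c 1).natDegree + (2 * a + b) ≤ d := by
  intro h0
  have := h.hc 1 h0
  simp at this
  omega

theorem Bd.c2 (h : Bd a b d u v c) : c 2 ≠ 0 → (c 2).natDegree + (a + 2 * b) ≤ d := by
  intro h0
  have := h.hc 2 h0
  simp at this
  omega

theorem Bd.c3 (h : Bd a b d u v c) : c 3 ≠ 0 → (c 3).natDegree + 3 * b ≤ d := by
  intro h0
  have := h.hc 3 h0
  simp at this
  omega

theorem nd_mul3 {x y z : A[X]} {p q r n : ℕ} (hx : x.natDegree ≤ p) (hy : y.natDegree ≤ q)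
    (hz : z.natDegree ≤ r) (hn : p + q + r = n) : (x * y * z).natDegree ≤ n := by
  have h1 := Polynomial.natDegree_mul_le (p := x * y) (q := z)
  have h2 := Polynomial.natDegree_mul_le (p := x) (q := y)
  omega

theorem co_mul3 {x y z : A[X]} {p q r n : ℕ} (hx : x.natDegree ≤ p) (hy : y.natDegree ≤ q)
    (hz : z.natDegree ≤ r) (hn : p + q + r = n) :
    (x * y * z).coeff n = x.coeff p * y.coeff q * z.coeff r := by
  subst hn
  rw [Polynomial.coeff_mul_add_eq_of_natDegree_le, Polynomial.coeff_mul_add_eq_of_natDegree_le hx hy]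
  · exact Polynomial.natDegree_mul_le.trans (Nat.add_le_add hx hy)
  · exact hz

theorem nd_c {x w : A[X]} {n : ℕ} (hx : x ≠ 0 → x.natDegree + n ≤ d) (hw : w.natDegree ≤ n) :
    (x * w).natDegree ≤ d := by
  by_cases h : x = 0
  · rw [h, zero_mul, Polynomial.natDegree_zero]
    exact Nat.zero_le _
  · have h1 := Polynomial.natDegree_mul_le (p := x) (q := w)
    have := hx h
    omega

theorem co_c {x w : A[X]} {n : ℕ} (hx : x ≠ 0 → x.natDegree + n ≤ d) (hw : w.natDegree ≤ n) :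
    (x * w).coeff d = (if n ≤ d then x.coeff (d - n) else 0) * w.coeff n := by
  by_cases h : x = 0
  · rw [h]
    simp
  · have h1 := hx h
    rw [if_pos (by omega)]
    have h2 : d = (d - n) + n := by omega
    conv_lhs => rw [h2]
    exact Polynomial.coeff_mul_add_eq_of_natDegree_le (by omega) hw

theorem wdg_nd (h : Bd a b d u v c) (s : Sg N) : (wdg u v s).natDegree ≤ a + b := by
  unfold wdg
  refine (Polynomial.natDegree_sub_le _ _).trans (max_le ?_ ?_)
  · exact Polynomial.natDegree_mul_le.trans (Nat.add_le_add (h.hu _) (h.hv _))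
  · refine Polynomial.natDegree_mul_le.trans ?_
    have h1 := h.hv s.1
    have h2 := h.hu s.2
    omega

theorem wdg_co (h : Bd a b d u v c) (s : Sg N) : (wdg u v s).coeff (a + b) =
    wdg (fun i => (u i).coeff a) (fun i => (v i).coeff b) s := by
  unfold wdg
  rw [Polynomial.coeff_sub, Polynomial.coeff_mul_add_eq_of_natDegree_le (h.hu _) (h.hv _)]
  congr 1
  rw [add_comm a b, Polynomial.coeff_mul_add_eq_of_natDegree_le (h.hv _) (h.hu _)]

theorem cub_nd (h : Bd a b d u v c) (t : Ta N) : (cub u v c t).natDegree ≤ d := by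
  unfold cub
  refine Polynomial.natDegree_add_le_of_degree_le (Polynomial.natDegree_add_le_of_degree_le
    (Polynomial.natDegree_add_le_of_degree_le ?_ ?_) ?_) ?_
  · exact nd_c (Bd.c0 h) (nd_mul3 (h.hu _) (h.hu _) (h.hu _) (by ring))
  · refine nd_c (Bd.c1 h) (Polynomial.natDegree_add_le_of_degree_le
      (Polynomial.natDegree_add_le_of_degree_le ?_ ?_) ?_)
    · exact nd_mul3 (h.hu _) (h.hu _) (h.hv _) (by ring)
    · exact nd_mul3 (h.hu _) (h.hv _) (h.hu _) (by ring)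
    · exact nd_mul3 (h.hv _) (h.hu _) (h.hu _) (by ring)
  · refine nd_c (Bd.c2 h) (Polynomial.natDegree_add_le_of_degree_le
      (Polynomial.natDegree_add_le_of_degree_le ?_ ?_) ?_)
    · exact nd_mul3 (h.hu _) (h.hv _) (h.hv _) (by ring)
    · exact nd_mul3 (h.hv _) (h.hu _) (h.hv _) (by ring)
    · exact nd_mul3 (h.hv _) (h.hv _) (h.hu _) (by ring)
  · exact nd_c (Bd.c3 h) (nd_mul3 (h.hv _) (h.hv _) (h.hv _) (by ring))

/-- The top coefficients. -/
noncomputable def topc (a b d : ℕ) (c : Fin 4 → A[X]) (i : Fin 4) : A :=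
  if (3 - (i : ℕ)) * a + i * b ≤ d then (c i).coeff (d - ((3 - (i : ℕ)) * a + i * b)) else 0

theorem cub_co (h : Bd a b d u v c) (t : Ta N) : (cub u v c t).coeff d =
    cub (fun i => (u i).coeff a) (fun i => (v i).coeff b) (topc a b d c) t := by
  have e0 : topc a b d c 0 = if 3 * a ≤ d then (c 0).coeff (d - 3 * a) else 0 := by
    simp [topc]
  have e1 : topc a b d c 1 = if 2 * a + b ≤ d then (c 1).coeff (d - (2 * a + b)) else 0 := by
    simp [topc]
  have e2 : topc a b d c 2 = if a + 2 * b ≤ d then (c 2).coeff (d - (a + 2 * b)) else 0 := by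
    simp [topc]
  have e3 : topc a b d c 3 = if 3 * b ≤ d then (c 3).coeff (d - 3 * b) else 0 := by
    simp [topc]
  unfold cub
  rw [e0, e1, e2, e3]
  simp only [Polynomial.coeff_add]
  congr 1
  · congr 1
    · congr 1
      · rw [co_c (Bd.c0 h) (nd_mul3 (h.hu _) (h.hu _) (h.hu _) (by ring)),
          co_mul3 (h.hu _) (h.hu _) (h.hu _) (by ring)]
      · rw [co_c (Bd.c1 h), Polynomial.coeff_add, Polynomial.coeff_add,
          co_mul3 (h.hu _) (h.hu _) (h.hv _) (by ring),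
          co_mul3 (h.hu _) (h.hv _) (h.hu _) (by ring),
          co_mul3 (h.hv _) (h.hu _) (h.hu _) (by ring)]
        refine Polynomial.natDegree_add_le_of_degree_le
          (Polynomial.natDegree_add_le_of_degree_le ?_ ?_) ?_
        · exact nd_mul3 (h.hu _) (h.hu _) (h.hv _) (by ring)
        · exact nd_mul3 (h.hu _) (h.hv _) (h.hu _) (by ring)
        · exact nd_mul3 (h.hv _) (h.hu _) (h.hu _) (by ring)
    · rw [co_c (Bd.c2 h), Polynomial.coeff_add, Polynomial.coeff_add,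
        co_mul3 (h.hu _) (h.hv _) (h.hv _) (by ring),
        co_mul3 (h.hv _) (h.hu _) (h.hv _) (by ring),
        co_mul3 (h.hv _) (h.hv _) (h.hu _) (by ring)]
      refine Polynomial.natDegree_add_le_of_degree_le
        (Polynomial.natDegree_add_le_of_degree_le ?_ ?_) ?_
      · exact nd_mul3 (h.hu _) (h.hv _) (h.hv _) (by ring)
      · exact nd_mul3 (h.hv _) (h.hu _) (h.hv _) (by ring)
      · exact nd_mul3 (h.hv _) (h.hv _) (h.hu _) (by ring)
  · rw [co_c (Bd.c3 h) (nd_mul3 (h.hv _) (h.hv _) (h.hv _) (by ring)),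
      co_mul3 (h.hv _) (h.hv _) (h.hv _) (by ring)]

end

section
variable {k : Type} [Field k] {N a b d : ℕ} {u v : Fin N → k[X]} {c : Fin 4 → k[X]}

theorem sne (t : k) : (![t, 1] : Fin 2 → k) ≠ 0 := by
  intro h
  have := congrFun h 1
  simp at this

theorem sne' : (![1, 0] : Fin 2 → k) ≠ 0 := by
  intro h
  have := congrFun h 0
  simp at this

theorem pol_lw (h : Bd a b d u v c) (s : Sg N) :
    (pol fun l : Fin (a + b + 1) => lw (a + b) u v (s, l)) = wdg u v s :=
  pol_coeff_self (wdg u v s) (wdg_nd h s)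

theorem pol_mw (h : Bd a b d u v c) (t : Ta N) :
    (pol fun l : Fin (d + 1) => mw d u v c (t, l)) = cub u v c t :=
  pol_coeff_self (cub u v c t) (cub_nd h t)

theorem lw_at (h : Bd a b d u v c) (t : k) (s : Sg N) :
    forms (lw (a + b) u v) ![t, 1] s =
      wdg (fun i => (u i).eval t) (fun i => (v i).eval t) s := by
  rw [forms_aff _ _ (by simp), pol_lw h]
  simp [wdg]

theorem mw_at (h : Bd a b d u v c) (t : k) (s : Ta N) :
    forms (mw d u v c) ![t, 1] s =
      cub (fun i => (u i).eval t) (fun i => (v i).eval t) (fun i => (c i).eval t) s := by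
  rw [forms_aff _ _ (by simp), pol_mw h]
  simp [cub]

theorem lw_inf (h : Bd a b d u v c) (s : Sg N) :
    forms (lw (a + b) u v) ![1, 0] s =
      wdg (fun i => (u i).coeff a) (fun i => (v i).coeff b) s := by
  rw [forms_inf _ _ (by simp)]
  unfold lw
  rw [Fin.val_last, wdg_co h]
  simp

theorem mw_inf (h : Bd a b d u v c) (s : Ta N) :
    forms (mw d u v c) ![1, 0] s =
      cub (fun i => (u i).coeff a) (fun i => (v i).coeff b) (topc a b d c) s := by
  rw [forms_inf _ _ (by simp)]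
  unfold mw
  rw [Fin.val_last, cub_co h]
  simp

theorem gd_of (h : Bd a b d u v c) (hl : NoZero (lw (a + b) u v)) (hm : NoZero (mw d u v c)) :
    Gd a b d u v c := by
  refine ⟨?_, ?_, ?_, ?_⟩
  · intro t h0
    apply hl _ (sne t)
    funext s
    rw [lw_at h, h0]
  · intro h0
    apply hl _ sne'
    funext s
    rw [lw_inf h, h0]
  · intro t
    by_contra hcon
    push Not at hcon
    apply hm _ (sne t)
    funext s
    rw [mw_at h]
    simp [cub, hcon]
  · by_contra hcon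
    push Not at hcon
    apply hm _ sne'
    funext s
    rw [mw_inf h]
    have h1 : topc a b d c = 0 := by
      funext i
      unfold topc
      split_ifs with hi
      · exact hcon i hi
      · rfl
    rw [h1]
    simp [cub]

theorem cv_ne (hl : NoZero (lw (a + b) u v)) (hm : NoZero (mw d u v c)) :
    cv (a + b) d u v c ≠ 0 := by
  intro h0
  obtain ⟨x, hx⟩ := Function.ne_iff.1 hl.ne_zero
  obtain ⟨y, hy⟩ := Function.ne_iff.1 hm.ne_zero
  have := congrFun h0 (x, y)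
  rw [cv_eq] at this
  exact (mul_ne_zero hx hy) this

end

/-! ### Parameters from polynomials -/

section
variable {A : Type} [CommRing A] {N a b : ℕ} {nc : Fin 4 → ℕ} (K : Fin 4 → ℕ)

/-- The parameters of a triple. -/
noncomputable def mkP (u v : Fin N → A[X]) (c : Fin 4 → A[X]) : Px N a b nc → A
  | .inl (i, j) => (u i).coeff j
  | .inr (.inl (i, j)) => (v i).coeff j
  | .inr (.inr ⟨i, j⟩) => (c i - (K i : A[X])).coeff j

theorem uP_mk (u v : Fin N → A[X]) (c : Fin 4 → A[X]) (h : ∀ i, (u i).natDegree ≤ a) :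
    uP (mkP K u v c : Px N a b nc → A) = u := by
  funext i
  exact qol_self _ fun j hj => Polynomial.coeff_eq_zero_of_natDegree_lt (by
    have := h i
    omega)

theorem vP_mk (u v : Fin N → A[X]) (c : Fin 4 → A[X]) (h : ∀ i, (v i).natDegree ≤ b) :
    vP (mkP K u v c : Px N a b nc → A) = v := by
  funext i
  exact qol_self _ fun j hj => Polynomial.coeff_eq_zero_of_natDegree_lt (by
    have := h i
    omega)

theorem cP_mk (u v : Fin N → A[X]) (c : Fin 4 → A[X])
    (h : ∀ i j, nc i ≤ j → (c i - (K i : A[X])).coeff j = 0) :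
    cP K (mkP K u v c : Px N a b nc → A) = c := by
  funext i
  have h1 : qol (fun j : Fin (nc i) => (mkP K u v c : Px N a b nc → A) (.inr (.inr ⟨i, j⟩))) =
      c i - (K i : A[X]) := qol_self _ (h i)
  unfold cP
  rw [h1]
  ring

/-- The numbers of the coefficients in the general stratum. -/
def ncS (a b d : ℕ) (i : Fin 4) : ℕ := d + 1 - ((3 - (i : ℕ)) * a + i * b)

theorem bdS (d : ℕ) (c : Px N a b (ncS a b d) → A) :
    Bd a b d (uP c) (vP c) (cP 0 c) := by
  refine ⟨fun i => qol_natDegree_le _, fun i => qol_natDegree_le _, ?_⟩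
  intro i hi
  have h1 : cP 0 c i = qol fun j : Fin (ncS a b d i) => c (.inr (.inr ⟨i, j⟩)) := by
    unfold cP
    simp
  rw [h1] at hi ⊢
  have h2 := qol_natDegree_lt _ hi
  have h3 : ncS a b d i = d + 1 - ((3 - (i : ℕ)) * a + i * b) := rfl
  omega

theorem mkS {d : ℕ} {u v : Fin N → A[X]} {c : Fin 4 → A[X]} (h : Bd a b d u v c) :
    uP (mkP 0 u v c : Px N a b (ncS a b d) → A) = u ∧
    vP (mkP 0 u v c : Px N a b (ncS a b d) → A) = v ∧
    cP 0 (mkP 0 u v c : Px N a b (ncS a b d) → A) = c := by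
  refine ⟨uP_mk _ _ _ _ h.hu, vP_mk _ _ _ _ h.hv, cP_mk _ _ _ _ ?_⟩
  intro i j hj
  simp only [Pi.zero_apply, Nat.cast_zero, sub_zero]
  by_cases h0 : c i = 0
  · rw [h0, Polynomial.coeff_zero]
  · apply Polynomial.coeff_eq_zero_of_natDegree_lt
    have := h.hc i h0
    unfold ncS at hj
    omega

/-- The numbers of the coefficients in the second family. -/
def nc2 (m n : ℕ) : Fin 4 → ℕ := ![2 * (n - m) + 1, 0, 0, 0]

/-- The constants in the second family. -/
def K2 : Fin 4 → ℕ := ![0, 0, 1, 0]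

theorem cP2 {m n : ℕ} (c : Px N m n (nc2 m n) → A) :
    cP K2 c = ![qol fun j : Fin (2 * (n - m) + 1) => c (.inr (.inr ⟨0, j⟩)), 0, 1, 0] := by
  funext i
  unfold cP
  fin_cases i
  · show ((0 : ℕ) : A[X]) + _ = _
    rw [Nat.cast_zero, zero_add]
    rfl
  · show ((0 : ℕ) : A[X]) + qol _ = 0
    rw [Nat.cast_zero, zero_add]
    rfl
  · show ((1 : ℕ) : A[X]) + qol _ = 1
    have : (qol fun j : Fin (nc2 m n 2) => c (.inr (.inr ⟨2, j⟩))) = 0 := rfl
    rw [Nat.cast_one]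
    exact (congrArg (fun z => (1 : A[X]) + z) this).trans (add_zero _)
  · show ((0 : ℕ) : A[X]) + qol _ = 0
    rw [Nat.cast_zero, zero_add]
    rfl

theorem bd2 {m n : ℕ} (hmn : m ≤ n) (c : Px N m n (nc2 m n) → A) :
    Bd m n (m + 2 * n) (uP c) (vP c) (cP K2 c) := by
  refine ⟨fun i => qol_natDegree_le _, fun i => qol_natDegree_le _, ?_⟩
  rw [cP2]
  intro i hi
  fin_cases i
  · have h1 : (qol fun j : Fin (2 * (n - m) + 1) => c (.inr (.inr ⟨0, j⟩))).natDegree ≤
      2 * (n - m) := qol_natDegree_le _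
    show (qol fun j : Fin (2 * (n - m) + 1) => c (.inr (.inr ⟨0, j⟩))).natDegree +
      ((3 - 0) * m + 0 * n) ≤ m + 2 * n
    omega
  · exact absurd rfl hi
  · show (1 : A[X]).natDegree + ((3 - 2) * m + 2 * n) ≤ m + 2 * n
    rw [Polynomial.natDegree_one]
    omega
  · exact absurd rfl hi

theorem mk2 {m n : ℕ} {u v : Fin N → A[X]} {f : A[X]}
    (h : Bd m n (m + 2 * n) u v ![f, 0, 1, 0]) :
    uP (mkP K2 u v ![f, 0, 1, 0] : Px N m n (nc2 m n) → A) = u ∧
    vP (mkP K2 u v ![f, 0, 1, 0] : Px N m n (nc2 m n) → A) = v ∧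
    cP K2 (mkP K2 u v ![f, 0, 1, 0] : Px N m n (nc2 m n) → A) = ![f, 0, 1, 0] := by
  refine ⟨uP_mk _ _ _ _ h.hu, vP_mk _ _ _ _ h.hv, cP_mk _ _ _ _ ?_⟩
  intro i j hj
  fin_cases i
  · show (f - ((0 : ℕ) : A[X])).coeff j = 0
    rw [Nat.cast_zero, sub_zero]
    by_cases h0 : f = 0
    · rw [h0, Polynomial.coeff_zero]
    · apply Polynomial.coeff_eq_zero_of_natDegree_lt
      have h1 := Bd.c0 h h0
      have h2 : 2 * (n - m) + 1 ≤ j := hj
      have h3 : f.natDegree + 3 * m ≤ m + 2 * n := h1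
      omega
  · show (0 - ((0 : ℕ) : A[X])).coeff j = 0
    simp
  · show (1 - ((1 : ℕ) : A[X])).coeff j = 0
    simp
  · show (0 - ((0 : ℕ) : A[X])).coeff j = 0
    simp

/-- The standard basis. -/
noncomputable def uE (N a : ℕ) (A : Type) [CommRing A] (i : Fin N) : A[X] :=
  if (i : ℕ) = 0 then X ^ a else if (i : ℕ) = 1 then 1 else 0

/-- The standard basis. -/
noncomputable def vE (N b : ℕ) (A : Type) [CommRing A] (i : Fin N) : A[X] :=
  if (i : ℕ) = 1 then X ^ b else if (i : ℕ) = 2 then 1 else 0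

theorem uE_nd (i : Fin N) : (uE N a A i).natDegree ≤ a := by
  unfold uE
  split_ifs
  · exact Polynomial.natDegree_X_pow_le _
  · rw [Polynomial.natDegree_one]; exact Nat.zero_le _
  · rw [Polynomial.natDegree_zero]; exact Nat.zero_le _

theorem vE_nd (i : Fin N) : (vE N b A i).natDegree ≤ b := by
  unfold vE
  split_ifs
  · exact Polynomial.natDegree_X_pow_le _
  · rw [Polynomial.natDegree_one]; exact Nat.zero_le _
  · rw [Polynomial.natDegree_zero]; exact Nat.zero_le _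

theorem bdE1 {d : ℕ} (hab : a ≤ b) (hd : 3 * b ≤ d) :
    Bd a b d (uE N a A) (vE N b A) ![X ^ (d - 3 * a), 0, 0, 1] := by
  refine ⟨uE_nd, vE_nd, ?_⟩
  intro i hi
  fin_cases i
  · show (X ^ (d - 3 * a) : A[X]).natDegree + ((3 - 0) * a + 0 * b) ≤ d
    have := Polynomial.natDegree_X_pow_le (R := A) (d - 3 * a)
    omega
  · exact absurd rfl hi
  · exact absurd rfl hi
  · show (1 : A[X]).natDegree + ((3 - 3) * a + 3 * b) ≤ d
    rw [Polynomial.natDegree_one]
    omega

theorem bdE2 {m n : ℕ} :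
    Bd m n (m + 2 * n) (uE N m A) (vE N n A) ![0, 0, 1, 0] := by
  refine ⟨uE_nd, vE_nd, ?_⟩
  intro i hi
  fin_cases i
  · exact absurd rfl hi
  · exact absurd rfl hi
  · show (1 : A[X]).natDegree + ((3 - 2) * m + 2 * n) ≤ m + 2 * n
    rw [Polynomial.natDegree_one]
    omega
  · exact absurd rfl hi

end

section
variable {k : Type} [Field k] {N a b d : ℕ} {nc : Fin 4 → ℕ} {K : Fin 4 → ℕ}

theorem par_aux (S : Set (PP k ((Sg N × Fin (a + b + 1)) × (Ta N × Fin (d + 1)))))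
    (c0 : Px N a b nc → k) (hB : ∀ c : Px N a b nc → k, Bd a b d (uP c) (vP c) (cP K c))
    (s₁ s₂ : Sg N) (t₁ t₂ : Ta N)
    (h1 : wdg (uP c0) (vP c0) s₁ = 1) (h2 : wdg (uP c0) (vP c0) s₂ = X ^ (a + b))
    (h3 : cub (uP c0) (vP c0) (cP K c0) t₁ = 1) (h4 : cub (uP c0) (vP c0) (cP K c0) t₂ = X ^ d)
    (hS : ∀ γ ∈ S, ∃ c : Px N a b nc → k, Rep γ (cv (a + b) d (uP c) (vP c) (cP K c)))
    (hS' : ∀ c : Px N a b nc → k, Gd a b d (uP c) (vP c) (cP K c) →
      ∀ γ, Rep γ (cv (a + b) d (uP c) (vP c) (cP K c)) → γ ∈ S) :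
    ∃ R, IsPar S (gc k K N a b nc (a + b) d) R := by
  classical
  obtain ⟨Pl, hl, hl'⟩ := noZero_open s₁ s₂ (lw (a + b) (uP c0) (vP c0))
    ((pol_lw (hB c0) s₁).trans h1) ((pol_lw (hB c0) s₂).trans h2)
  obtain ⟨Pm, hm, hm'⟩ := noZero_open t₁ t₂ (mw d (uP c0) (vP c0) (cP K c0))
    ((pol_mw (hB c0) t₁).trans h3) ((pol_mw (hB c0) t₂).trans h4)
  have he : ∀ c : Px N a b nc → k, MvPolynomial.eval c
      (MvPolynomial.aeval (gl k N a b nc (a + b)) Pl *
        MvPolynomial.aeval (gm k K N a b nc d) Pm) =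
      MvPolynomial.eval (lw (a + b) (uP c) (vP c)) Pl *
        MvPolynomial.eval (mw d (uP c) (vP c) (cP K c)) Pm := by
    intro c
    rw [map_mul, eval_aeval, eval_aeval]
    simp only [eval_gl, eval_gm]
  refine ⟨MvPolynomial.aeval (gl k N a b nc (a + b)) Pl *
    MvPolynomial.aeval (gm k K N a b nc d) Pm, ?_, ?_, ?_⟩
  · intro h0
    have := he c0
    rw [h0, map_zero] at this
    exact (mul_ne_zero hl hm) this.symm
  · intro c hc
    rw [he] at hc
    have n1 := hl' _ (left_ne_zero_of_mul hc)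
    have n2 := hm' _ (right_ne_zero_of_mul hc)
    obtain ⟨γ, hγ⟩ := exists_rep (cv_ne n1 n2)
    refine ⟨γ, hS' c (gd_of (hB c) n1 n2) γ hγ, ?_⟩
    simp only [eval_gc]
    exact hγ
  · intro γ hγ
    obtain ⟨c, hc⟩ := hS γ hγ
    refine ⟨c, ?_⟩
    simp only [eval_gc]
    exact hc

theorem par1 (hN : 3 ≤ N) (hab : a ≤ b) (hd : 3 * b ≤ d) :
    ∃ R, IsPar (Strat k N (a + b) d a b) (gc k 0 N a b (ncS a b d) (a + b) d) R := by
  obtain ⟨e1, e2, e3⟩ := mkS (bdE1 (A := k) (N := N) hab hd)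
  refine par_aux _ (mkP 0 (uE N a k) (vE N b k) ![X ^ (d - 3 * a), 0, 0, 1]) (fun c => bdS d c)
    (⟨1, by omega⟩, ⟨2, by omega⟩) (⟨0, by omega⟩, ⟨1, by omega⟩)
    (⟨2, by omega⟩, ⟨2, by omega⟩, ⟨2, by omega⟩) (⟨0, by omega⟩, ⟨0, by omega⟩, ⟨0, by omega⟩)
    ?_ ?_ ?_ ?_ ?_ ?_
  · rw [e1, e2]
    simp [wdg, uE, vE]
  · rw [e1, e2]
    simp [wdg, uE, vE, pow_add]
  · rw [e1, e2, e3]
    simp [cub, uE, vE]
  · rw [e1, e2, e3]
    simp [cub, uE, vE]
    rw [← pow_add, ← pow_add, ← pow_add]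
    congr 1
    omega
  · rintro γ ⟨u, v, c, hB, _, hγ⟩
    obtain ⟨e1, e2, e3⟩ := mkS hB
    refine ⟨mkP 0 u v c, ?_⟩
    rw [e1, e2, e3]
    exact hγ
  · intro c hG γ hγ
    exact ⟨_, _, _, bdS d c, hG, hγ⟩

theorem par2 {m n : ℕ} (hN : 3 ≤ N) (hmn : m ≤ n) :
    ∃ R, IsPar (Str2 k N m n) (gc k K2 N m n (nc2 m n) (m + n) (m + 2 * n)) R := by
  obtain ⟨e1, e2, e3⟩ := mk2 (bdE2 (A := k) (N := N) (m := m) (n := n))
  refine par_aux _ (mkP K2 (uE N m k) (vE N n k) ![0, 0, 1, 0]) (fun c => bd2 hmn c)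
    (⟨1, by omega⟩, ⟨2, by omega⟩) (⟨0, by omega⟩, ⟨1, by omega⟩)
    (⟨1, by omega⟩, ⟨2, by omega⟩, ⟨2, by omega⟩) (⟨0, by omega⟩, ⟨1, by omega⟩, ⟨1, by omega⟩)
    ?_ ?_ ?_ ?_ ?_ ?_
  · rw [e1, e2]
    simp [wdg, uE, vE]
  · rw [e1, e2]
    simp [wdg, uE, vE, pow_add]
  · rw [e1, e2, e3]
    simp [cub, uE, vE]
  · rw [e1, e2, e3]
    simp [cub, uE, vE]
    rw [← pow_add, ← pow_add]
    congr 1
    omega
  · rintro γ ⟨u, v, f, hB, _, hγ⟩
    obtain ⟨e1, e2, e3⟩ := mk2 hB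
    refine ⟨mkP K2 u v ![f, 0, 1, 0], ?_⟩
    rw [e1, e2, e3]
    exact hγ
  · intro c hG γ hγ
    have hB := bd2 hmn c
    rw [cP2] at hB hG hγ
    exact ⟨_, _, _, hB, hG, hγ⟩

end

theorem done1 : StmIrr1 := by
  intro k _ _ _ N e d a b hN he hab hd
  subst he
  have : Infinite k := IsAlgClosed.instInfinite
  obtain ⟨R, hR⟩ := par1 (k := k) hN hab hd
  exact hR.irreducible

theorem done2 : StmIrr2 := by
  intro k _ _ _ N m n hN hmn
  have : Infinite k := IsAlgClosed.instInfinite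
  obtain ⟨R, hR⟩ := par2 (k := k) hN hmn
  exact hR.irreducible

end Pool.Agent.Y442.MC
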