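import Pool.Agent.Y442.MC.Irr
import Pool.Agent.Y166.GM.Cone

/-!
# The second family is not contained in the closure of a stratum of larger type
-/

set_option autoImplicit false
set_option linter.unusedSectionVars false
set_option linter.deprecated false

namespace Pool.Agent.Y442.MC

open Polynomial Pool.Agent.Y166.GM Pool.Agent.Y166.SM Pool.Agent.Y198.MC

/-- The indices of the coefficients of the Plücker coordinates and of the symmetric tensor. -/
abbrev Sx (N e d : ℕ) : Type := (Sg N × Fin (e + 1)) ⊕ (Ta N × Fin (d + 1))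

section
variable (k : Type) [Field k]

/-- The generic pair of the second family. -/
noncomputable def psi2 (N m n : ℕ) (x : Sx N (m + n) (m + 2 * n)) :
    MvPolynomial (Px N m n (nc2 m n)) k :=
  Sum.elim (gl k N m n (nc2 m n) (m + n)) (gm k K2 N m n (nc2 m n) (m + 2 * n)) x

/-- The generic pair of the stratum. -/
noncomputable def psiF (N a b e d : ℕ) (x : Sx N e d) :
    MvPolynomial (Px N a b (ncS a b d)) k :=
  Sum.elim (gl k N a b (ncS a b d) e) (gm k 0 N a b (ncS a b d) d) x

variable {k}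

theorem eval_psi2 {N m n : ℕ} (c : Px N m n (nc2 m n) → k) :
    (fun x => MvPolynomial.eval c (psi2 k N m n x)) =
      Sum.elim (lw (m + n) (uP c) (vP c)) (mw (m + 2 * n) (uP c) (vP c) (cP K2 c)) := by
  funext x
  rcases x with x | x
  · exact eval_gl _ x c
  · exact eval_gm _ _ x c

theorem eval_psiF {N a b e d : ℕ} (c : Px N a b (ncS a b d) → k) :
    (fun x => MvPolynomial.eval c (psiF k N a b e d x)) =
      Sum.elim (lw e (uP c) (vP c)) (mw d (uP c) (vP c) (cP 0 c)) := by
  funext x
  rcases x with x | x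
  · exact eval_gl _ x c
  · exact eval_gm _ _ x c

theorem full_iff [Infinite k] {N a b e d : ℕ} (F : MvPolynomial (Sx N e d) k) :
    MvPolynomial.aeval (psiF k N a b e d) F = 0 ↔
      ∀ (u v : Fin N → k[X]) (c : Fin 4 → k[X]), Bd a b d u v c →
        MvPolynomial.eval (Sum.elim (lw e u v) (mw d u v c)) F = 0 := by
  constructor
  · intro h u v c hB
    obtain ⟨e1, e2, e3⟩ := mkS hB
    have h1 := congrArg (MvPolynomial.eval (mkP 0 u v c)) h
    rw [eval_aeval, eval_psiF, e1, e2, e3, map_zero] at h1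
    exact h1
  · intro h
    apply MvPolynomial.funext
    intro c
    rw [eval_aeval, eval_psiF, map_zero]
    exact h _ _ _ (bdS d c)

/-! ### Scaling -/

theorem scale {N a b d : ℕ} (e : ℕ) {u v : Fin N → k[X]} {c : Fin 4 → k[X]} (h : Bd a b d u v c)
    {s : k} (hs : s ≠ 0) (t : k) : ∃ (u' v' : Fin N → k[X]) (c' : Fin 4 → k[X]),
      Bd a b d u' v' c' ∧ lw e u' v' = (fun x => s * lw e u v x) ∧
        mw d u' v' c' = fun x => t * mw d u v c x := by
  refine ⟨fun i => C s * u i, v, fun i => C (t * s⁻¹ ^ (3 - (i : ℕ))) * c i, ?_, ?_, ?_⟩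
  · refine ⟨fun i => (Polynomial.natDegree_C_mul_le _ _).trans (h.hu i), h.hv, ?_⟩
    intro i hi
    have h1 := h.hc i (right_ne_zero_of_mul hi)
    have h2 := Polynomial.natDegree_C_mul_le (t * s⁻¹ ^ (3 - (i : ℕ))) (c i)
    omega
  · funext x
    unfold lw
    rw [← Polynomial.coeff_C_mul]
    congr 1
    simp only [wdg]
    ring
  · funext x
    unfold mw
    rw [← Polynomial.coeff_C_mul]
    congr 1
    have hss : (C s : k[X]) * C s⁻¹ = 1 := by
      rw [← C_mul, mul_inv_cancel₀ hs, C_1]
    have h0 : C (t * s⁻¹ ^ (3 - ((0 : Fin 4) : ℕ))) = (C t * C s⁻¹ ^ 3 : k[X]) := by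
      rw [C_mul, C_pow]
      rfl
    have h1 : C (t * s⁻¹ ^ (3 - ((1 : Fin 4) : ℕ))) = (C t * C s⁻¹ ^ 2 : k[X]) := by
      rw [C_mul, C_pow]
      rfl
    have h2 : C (t * s⁻¹ ^ (3 - ((2 : Fin 4) : ℕ))) = (C t * C s⁻¹ ^ 1 : k[X]) := by
      rw [C_mul, C_pow]
      rfl
    have h3 : C (t * s⁻¹ ^ (3 - ((3 : Fin 4) : ℕ))) = (C t * C s⁻¹ ^ 0 : k[X]) := by
      rw [C_mul, C_pow]
      rfl
    simp only [cub]
    rw [h0, h1, h2, h3]
    generalize (C s : k[X]) = S at hss ⊢
    generalize (C s⁻¹ : k[X]) = S' at hss ⊢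
    linear_combination (C t * c 0 * (u x.1.1 * u x.1.2.1 * u x.1.2.2) *
      ((S * S') ^ 2 + S * S' + 1) +
      C t * c 1 * (u x.1.1 * u x.1.2.1 * v x.1.2.2 + u x.1.1 * v x.1.2.1 * u x.1.2.2 +
        v x.1.1 * u x.1.2.1 * u x.1.2.2) * (S * S' + 1) +
      C t * c 2 * (u x.1.1 * v x.1.2.1 * v x.1.2.2 + v x.1.1 * u x.1.2.1 * v x.1.2.2 +
        v x.1.1 * v x.1.2.1 * u x.1.2.2)) * hss

/-! ### Normal forms -/

/-- The indices of the parameters which are fixed in the normal form. -/
def fx (N a b : ℕ) (nc : Fin 4 → ℕ) (hab : a ≤ b) :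
    Fin (if a = b then 2 else 1) ⊕ Fin (b - a + 1) → Px (N + 2) a b nc
  | .inl i => .inl (⟨i, by
      have := i.2
      split_ifs at this <;> omega⟩, ⟨a, by omega⟩)
  | .inr j => .inr (.inl (0, ⟨a + j, by
      have := j.2
      omega⟩))

theorem fx_inj (N a b : ℕ) (nc : Fin 4 → ℕ) (hab : a ≤ b) :
    Function.Injective (fx N a b nc hab) := by
  rintro (i | i) (j | j) h
  · simp only [fx, Sum.inl.injEq, Prod.mk.injEq, Fin.mk.injEq] at h
    exact congrArg Sum.inl (Fin.ext h.1)
  · simp [fx] at h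
  · simp [fx] at h
  · simp only [fx, Sum.inr.injEq, Sum.inl.injEq, Prod.mk.injEq, Fin.mk.injEq] at h
    exact congrArg Sum.inr (Fin.ext (by omega))

open Classical in
/-- The fixed parameters. -/
noncomputable def FX (N a b : ℕ) (nc : Fin 4 → ℕ) (hab : a ≤ b) : Finset (Px (N + 2) a b nc) :=
  Finset.univ.map ⟨fx N a b nc hab, fx_inj N a b nc hab⟩

open Classical in
/-- The parameters of the normal forms. -/
abbrev P1 (N a b : ℕ) (nc : Fin 4 → ℕ) (hab : a ≤ b) : Type :=
  {x : Px (N + 2) a b nc // x ∈ (FX N a b nc hab)ᶜ}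

open Classical in
/-- The values of all parameters of a normal form. -/
noncomputable def ext {A : Type} [CommRing A] {N a b : ℕ} {nc : Fin 4 → ℕ} {hab : a ≤ b}
    (c : P1 N a b nc hab → A) (x : Px (N + 2) a b nc) : A :=
  if h : x ∈ (FX N a b nc hab)ᶜ then c ⟨x, h⟩ else
    if x = .inl (0, ⟨a, by omega⟩) then 1 else 0

theorem ext_map {A B : Type} [CommRing A] [CommRing B] (f : A →+* B) {N a b : ℕ}
    {nc : Fin 4 → ℕ} {hab : a ≤ b} (c : P1 N a b nc hab → A) (x : Px (N + 2) a b nc) :
    f (ext c x) = ext (fun y => f (c y)) x := by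
  unfold ext
  split_ifs
  · rfl
  · exact map_one f
  · exact map_zero f

variable (k) in
/-- The generic pair in normal form. -/
noncomputable def psi1 (N a b e d : ℕ) (hab : a ≤ b) (x : Sx (N + 2) e d) :
    MvPolynomial (P1 N a b (ncS a b d) hab) k :=
  MvPolynomial.aeval (ext (MvPolynomial.X : P1 N a b (ncS a b d) hab → MvPolynomial _ k))
    (psiF k (N + 2) a b e d x)

theorem aeval_psi1 {N a b e d : ℕ} (hab : a ≤ b) (F : MvPolynomial (Sx (N + 2) e d) k) :
    MvPolynomial.aeval (psi1 k N a b e d hab) F =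
      MvPolynomial.aeval (ext (MvPolynomial.X : P1 N a b (ncS a b d) hab → MvPolynomial _ k))
        (MvPolynomial.aeval (psiF k (N + 2) a b e d) F) := by
  have h : (MvPolynomial.aeval (psi1 k N a b e d hab) : MvPolynomial (Sx (N + 2) e d) k →ₐ[k] _) =
      (MvPolynomial.aeval (ext (MvPolynomial.X : P1 N a b (ncS a b d) hab →
        MvPolynomial _ k))).comp (MvPolynomial.aeval (psiF k (N + 2) a b e d)) := by
    apply MvPolynomial.algHom_ext
    intro i
    rw [AlgHom.comp_apply, MvPolynomial.aeval_X, MvPolynomial.aeval_X]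
    rfl
  rw [h]
  rfl

theorem eval_aeval_psi1 {N a b e d : ℕ} (hab : a ≤ b) (F : MvPolynomial (Sx (N + 2) e d) k)
    (c : P1 N a b (ncS a b d) hab → k) :
    MvPolynomial.eval c (MvPolynomial.aeval (psi1 k N a b e d hab) F) =
      MvPolynomial.eval (Sum.elim (lw e (uP (ext c)) (vP (ext c)))
        (mw d (uP (ext c)) (vP (ext c)) (cP 0 (ext c)))) F := by
  have h1 : (fun x => MvPolynomial.eval c (ext (MvPolynomial.X : P1 N a b (ncS a b d) hab →
      MvPolynomial (P1 N a b (ncS a b d) hab) k) x)) = ext c := by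
    funext x
    rw [ext_map]
    simp only [MvPolynomial.eval_X]
  rw [aeval_psi1, eval_aeval, h1, eval_aeval, eval_psiF]

open Classical in
theorem norm_iff (hN : StmNorm) [Infinite k] {N a b e d : ℕ} (hab : a ≤ b)
    (F : MvPolynomial (Sx (N + 2) e d) k) :
    MvPolynomial.aeval (psi1 k N a b e d hab) F = 0 ↔
      MvPolynomial.aeval (psiF k (N + 2) a b e d) F = 0 := by
  constructor
  · intro h
    set x0 : Px (N + 2) a b (ncS a b d) := .inl (0, ⟨a, by omega⟩) with hx0
    set x1 : Px (N + 2) a b (ncS a b d) := .inl (1, ⟨a, by omega⟩) with hx1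
    set y0 : Px (N + 2) a b (ncS a b d) := .inr (.inl (0, ⟨b, by omega⟩)) with hy0
    set y1 : Px (N + 2) a b (ncS a b d) := .inr (.inl (1, ⟨b, by omega⟩)) with hy1
    set M : MvPolynomial (Px (N + 2) a b (ncS a b d)) k :=
      MvPolynomial.X x0 * MvPolynomial.X y1 - MvPolynomial.X y0 * MvPolynomial.X x1 with hM
    have hM0 : M ≠ 0 := by
      intro h0
      have h1 := congrArg (MvPolynomial.eval (fun x => if x = x0 ∨ x = y1 then (1 : k) else 0)) h0
      rw [hM, map_sub, map_mul, map_mul, map_zero] at h1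
      simp [x0, x1, y0, y1] at h1
    have hG : MvPolynomial.aeval (psiF k (N + 2) a b e d) F * (MvPolynomial.X x0 * M) = 0 := by
      apply MvPolynomial.funext
      intro c
      rw [map_mul, map_mul, map_zero, MvPolynomial.eval_X]
      by_cases h1 : c x0 = 0
      · rw [h1, zero_mul, mul_zero]
      by_cases h2 : MvPolynomial.eval c M = 0
      · rw [h2, mul_zero, mul_zero]
      rw [eval_aeval, eval_psiF]
      have hu : ∀ (i : Fin (N + 2)) (j : Fin (a + 1)), (uP c i).coeff j = c (.inl (i, j)) := by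
        intro i j
        unfold uP
        rw [qol_coeff, dif_pos j.2]
      have hv : ∀ (i : Fin (N + 2)) (j : Fin (b + 1)),
          (vP c i).coeff j = c (.inr (.inl (i, j))) := by
        intro i j
        unfold vP
        rw [qol_coeff, dif_pos j.2]
      have hu0 := hu 0 ⟨a, by omega⟩
      have hu1 := hu 1 ⟨a, by omega⟩
      have hv0 := hv 0 ⟨b, by omega⟩
      have hv1 := hv 1 ⟨b, by omega⟩
      simp only at hu0 hu1 hv0 hv1
      obtain ⟨u', v', c', hB', hw, hc, n1, n2, n3⟩ := hN k N a b d (uP c) (vP c) (cP 0 c) hab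
        (bdS d c) (by rw [hu0]; exact h1) (by
          rw [hu0, hu1, hv0, hv1]
          rw [hM, map_sub, map_mul, map_mul] at h2
          simp only [MvPolynomial.eval_X] at h2
          exact h2)
      have hlw : lw e (uP c) (vP c) = lw e u' v' := by
        funext x
        unfold lw
        rw [hw]
      have hmw : mw d (uP c) (vP c) (cP 0 c) = mw d u' v' c' := by
        funext x
        unfold mw
        rw [hc]
      obtain ⟨e1, e2, e3⟩ := mkS hB'
      have hext : ext (fun x : P1 N a b (ncS a b d) hab => (mkP 0 u' v' c' :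
          Px (N + 2) a b (ncS a b d) → k) x.1) = mkP 0 u' v' c' := by
        funext x
        unfold ext
        split_ifs with g1 g2
        · rfl
        · rw [g2]
          exact n1.symm
        · rw [Finset.mem_compl, not_not] at g1
          obtain ⟨y, _, hy⟩ := Finset.mem_map.1 g1
          have hy' : fx N a b (ncS a b d) hab y = x := hy
          rcases y with y | y
          · by_cases hya : a = b
            · have hy2 : (y : ℕ) < 2 := lt_of_lt_of_eq y.2 (if_pos hya)
              by_cases hy0 : (y : ℕ) = 0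
              · exfalso
                apply g2
                rw [← hy']
                exact congrArg Sum.inl (Prod.ext (Fin.ext hy0) rfl)
              · rw [← hy']
                have hy3 : (y : ℕ) = 1 := by omega
                show (0 : k) = (u' ⟨y, _⟩).coeff a
                have : (⟨(y : ℕ), by omega⟩ : Fin (N + 2)) = 1 := Fin.ext hy3
                rw [this, n3 hya]
            · exfalso
              have hy2 : (y : ℕ) < 1 := lt_of_lt_of_eq y.2 (if_neg hya)
              apply g2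
              rw [← hy']
              exact congrArg Sum.inl (Prod.ext (Fin.ext (by show (y : ℕ) = 0; omega)) rfl)
          · rw [← hy']
            show (0 : k) = (v' 0).coeff (a + y)
            rw [n2 _ (by omega)]
      have h3 := congrArg (MvPolynomial.eval (fun x : P1 N a b (ncS a b d) hab =>
        (mkP 0 u' v' c' : Px (N + 2) a b (ncS a b d) → k) x.1)) h
      rw [eval_aeval_psi1, map_zero, hext, e1, e2, e3] at h3
      rw [hlw, hmw, h3, zero_mul]
    rcases mul_eq_zero.1 hG with h1 | h1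
    · exact h1
    · exact absurd h1 (mul_ne_zero (MvPolynomial.X_ne_zero _) hM0)
  · intro h
    rw [aeval_psi1, h, map_zero]

/-! ### The kernels -/

theorem lam_ne {N m n : ℕ} (hN : 3 ≤ N) :
    gl k N m n (nc2 m n) (m + n) ((⟨1, by omega⟩, ⟨2, by omega⟩), 0) ≠ 0 := by
  intro h
  obtain ⟨e1, e2, _⟩ := mk2 (bdE2 (A := k) (N := N) (m := m) (n := n))
  have h1 := congrArg (MvPolynomial.eval (mkP K2 (uE N m k) (vE N n k) ![0, 0, 1, 0])) h
  rw [eval_gl, e1, e2, map_zero] at h1
  simp [lw, wdg, uE, vE] at h1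

theorem mu_ne {N m n : ℕ} (hN : 3 ≤ N) :
    gm k K2 N m n (nc2 m n) (m + 2 * n)
      ((⟨1, by omega⟩, ⟨2, by omega⟩, ⟨2, by omega⟩), 0) ≠ 0 := by
  intro h
  obtain ⟨e1, e2, e3⟩ := mk2 (bdE2 (A := k) (N := N) (m := m) (n := n))
  have h1 := congrArg (MvPolynomial.eval (mkP K2 (uE N m k) (vE N n k) ![0, 0, 1, 0])) h
  rw [eval_gm, e1, e2, e3, map_zero] at h1
  simp [mw, cub, uE, vE] at h1

theorem eval_zero_of_components {σ : Type} {P : MvPolynomial σ k} {v : σ → k}
    (h : ∀ m, MvPolynomial.eval v (MvPolynomial.homogeneousComponent m P) = 0) :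
    MvPolynomial.eval v P = 0 := by
  by_contra hne
  obtain ⟨m, hm⟩ := exists_component hne
  exact hm (h m)

theorem stepA [Infinite k] {N m n a b : ℕ} (hN : 3 ≤ N) (hmn : m ≤ n)
    (H : Str2 k N m n ⊆ closure (Strat k N (m + n) (m + 2 * n) a b))
    (F : MvPolynomial (Sx N (m + n) (m + 2 * n)) k)
    (hF : MvPolynomial.aeval (psiF k N a b (m + n) (m + 2 * n)) F = 0) :
    MvPolynomial.aeval (psi2 k N m n) F = 0 := by
  rw [full_iff] at hF
  by_contra hne
  obtain ⟨R, hR⟩ := par2 (k := k) hN hmn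
  set s0 : Sg N × Fin (m + n + 1) := ((⟨1, by omega⟩, ⟨2, by omega⟩), 0) with hs0
  set t0 : Ta N × Fin (m + 2 * n + 1) := ((⟨1, by omega⟩, ⟨2, by omega⟩, ⟨2, by omega⟩), 0)
    with ht0
  obtain ⟨p, hp⟩ := exists_ne (mul_ne_zero (mul_ne_zero hR.ne hne)
    (mul_ne_zero (lam_ne (k := k) (m := m) (n := n) hN) (mu_ne (k := k) (m := m) (n := n) hN)))
  rw [map_mul, map_mul, map_mul, eval_aeval, eval_psi2, eval_gl, eval_gm] at hp
  obtain ⟨γ, hγ, hγ'⟩ := hR.pt p (left_ne_zero_of_mul (left_ne_zero_of_mul hp))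
  have hF2 := right_ne_zero_of_mul (left_ne_zero_of_mul hp)
  have hl := left_ne_zero_of_mul (right_ne_zero_of_mul hp)
  have hm := right_ne_zero_of_mul (right_ne_zero_of_mul hp)
  simp only [eval_gc] at hγ'
  set l := lw (m + n) (uP p) (vP p) with hldef
  set q := mw (m + 2 * n) (uP p) (vP p) (cP K2 p) with hqdef
  have hl' : l s0 ≠ 0 := hl
  have hm' : q t0 ≠ 0 := hm
  set α := (q t0)⁻¹ with hα
  set β := (l s0)⁻¹ with hβ
  have hα0 : α ≠ 0 := inv_ne_zero hm'
  have hβ0 : β ≠ 0 := inv_ne_zero hl'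
  set G : MvPolynomial ((Sg N × Fin (m + n + 1)) × (Ta N × Fin (m + 2 * n + 1))) k :=
    MvPolynomial.X (s0, t0) * MvPolynomial.aeval
      (Sum.elim (fun s => MvPolynomial.C α * MvPolynomial.X (s, t0))
        (fun t => MvPolynomial.C β * MvPolynomial.X (s0, t))) F with hG
  have hGe : ∀ y : (Sg N × Fin (m + n + 1)) × (Ta N × Fin (m + 2 * n + 1)) → k,
      MvPolynomial.eval y G = y (s0, t0) * MvPolynomial.eval
        (Sum.elim (fun s => α * y (s, t0)) (fun t => β * y (s0, t))) F := by
    intro y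
    have hf : (fun x => MvPolynomial.eval y (Sum.elim
        (fun s => MvPolynomial.C α * MvPolynomial.X (s, t0))
        (fun t => MvPolynomial.C β * MvPolynomial.X (s0, t)) x)) =
        Sum.elim (fun s => α * y (s, t0)) (fun t => β * y (s0, t)) := by
      funext x
      rcases x with x | x
      · simp
      · simp
    rw [hG, map_mul, MvPolynomial.eval_X, eval_aeval, hf]
  have hcomp : ∀ r, ∀ γ' ∈ Strat k N (m + n) (m + 2 * n) a b,
      MvPolynomial.eval γ'.rep (MvPolynomial.homogeneousComponent r G) = 0 := by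
    rintro r γ' ⟨u, v, c, hB, _, hc⟩
    rw [← zero_iff hc (MvPolynomial.homogeneousComponent_isHomogeneous r G)]
    apply component_zero
    intro x hx
    rw [hGe]
    have hy : ∀ z, (x • cv (m + n) (m + 2 * n) u v c) z =
        x * (lw (m + n) u v z.1 * mw (m + 2 * n) u v c z.2) := fun z => rfl
    simp only [hy]
    by_cases h1 : lw (m + n) u v s0 = 0
    · rw [h1]
      ring
    by_cases h2 : mw (m + 2 * n) u v c t0 = 0
    · rw [h2]
      ring
    obtain ⟨u', v', c', hB', g1, g2⟩ := scale (m + n) hB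
      (mul_ne_zero hα0 (mul_ne_zero hx h2)) (β * (x * lw (m + n) u v s0))
    have h3 := hF u' v' c' hB'
    rw [g1, g2] at h3
    have h4 : (Sum.elim (fun s => α * (x * (lw (m + n) u v s * mw (m + 2 * n) u v c t0)))
        (fun t => β * (x * (lw (m + n) u v s0 * mw (m + 2 * n) u v c t))) :
          Sx N (m + n) (m + 2 * n) → k) =
        Sum.elim (fun z => α * (x * mw (m + 2 * n) u v c t0) * lw (m + n) u v z)
          (fun z => β * (x * lw (m + n) u v s0) * mw (m + 2 * n) u v c z) := by
      funext z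
      rcases z with z | z
      · simp only [Sum.elim_inl]
        ring
      · simp only [Sum.elim_inr]
        ring
    rw [h4, h3, mul_zero]
  have hγc : ∀ r, MvPolynomial.eval γ.rep (MvPolynomial.homogeneousComponent r G) = 0 :=
    fun r => (mem_closure_iff' _ _).1 (H hγ) r _
      (MvPolynomial.homogeneousComponent_isHomogeneous r G) (hcomp r)
  have h5 := eval_zero_of_components fun r =>
    (zero_iff hγ' (MvPolynomial.homogeneousComponent_isHomogeneous r G)).2 (hγc r)
  have h6 : MvPolynomial.eval (fun z => l z.1 * q z.2) G = 0 := h5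
  rw [hGe] at h6
  rcases mul_eq_zero.1 h6 with h7 | h7
  · exact (mul_ne_zero hl' hm') h7
  · apply hF2
    have h8 : (Sum.elim (fun s => α * (l s * q t0)) (fun t => β * (l s0 * q t)) :
        Sx N (m + n) (m + 2 * n) → k) = Sum.elim l q := by
      funext z
      rcases z with z | z
      · simp only [Sum.elim_inl, hα]
        field_simp
      · simp only [Sum.elim_inr, hβ]
        field_simp
    rw [← h8]
    exact h7

/-! ### Derivations -/

theorem der_zero {P : Type} (D : Derivation k (FractionRing (MvPolynomial P k))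
    (FractionRing (MvPolynomial P k)))
    (h : ∀ p, D (algebraMap (MvPolynomial P k) _ (MvPolynomial.X p)) = 0) : D = 0 := by
  have h1 : ∀ Q : MvPolynomial P k, D (algebraMap (MvPolynomial P k) _ Q) = 0 := by
    intro Q
    induction Q using MvPolynomial.induction_on with
    | C a =>
      have : algebraMap (MvPolynomial P k) (FractionRing (MvPolynomial P k))
          (MvPolynomial.C a) = algebraMap k _ a := by
        rw [IsScalarTower.algebraMap_apply k (MvPolynomial P k)]
        rfl
      rw [this, Derivation.map_algebraMap]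
    | add p q hp hq => rw [map_add, map_add, hp, hq, add_zero]
    | mul_X p i hp => rw [map_mul, Derivation.leibniz, hp, h, smul_zero, smul_zero, add_zero]
  ext x
  obtain ⟨p, q, hq, rfl⟩ := IsFractionRing.div_surjective (A := MvPolynomial P k) x
  have hq0 : algebraMap (MvPolynomial P k) (FractionRing (MvPolynomial P k)) q ≠ 0 := by
    rw [Ne, IsFractionRing.to_map_eq_zero_iff]
    exact nonZeroDivisors.ne_zero hq
  have h2 := D.leibniz (algebraMap (MvPolynomial P k) (FractionRing (MvPolynomial P k)) p /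
    algebraMap _ _ q) (algebraMap _ _ q)
  rw [div_mul_cancel₀ _ hq0, h1, h1, smul_zero, zero_add, smul_eq_mul] at h2
  rcases mul_eq_zero.1 h2.symm with h3 | h3
  · exact absurd h3 hq0
  · rw [h3]
    rfl

theorem toInt {L : Type} [Field L] [Algebra k L] (D : Derivation k L L) :
    ∃ D' : Derivation ℤ L L, ∀ x, D' x = D x :=
  ⟨{ toLinearMap := D.toLinearMap.toAddMonoidHom.toIntLinearMap
     map_one_eq_zero' := D.map_one_eq_zero
     leibniz' := D.leibniz }, fun _ => rfl⟩

theorem der2 (hD : StmDer) [CharZero k] {N m n : ℕ} (hN : 3 ≤ N) (hmn : m ≤ n)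
    (D : Derivation k (FractionRing (MvPolynomial (Px N m n (nc2 m n)) k))
      (FractionRing (MvPolynomial (Px N m n (nc2 m n)) k)))
    (h : ∀ s, D (algebraMap (MvPolynomial (Px N m n (nc2 m n)) k) _ (psi2 k N m n s)) = 0) :
    D = 0 := by
  set Q := MvPolynomial (Px N m n (nc2 m n)) k with hQ
  set L := FractionRing Q with hL
  have : CharZero L := charZero_of_injective_algebraMap (R := k) (algebraMap k L).injective
  set p : Px N m n (nc2 m n) → L := fun x => algebraMap Q L (MvPolynomial.X x) with hp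
  have hB := bd2 hmn p
  have e1 : ∀ x, D (lw (m + n) (uP p) (vP p) x) = 0 := by
    intro x
    have := h (.inl x)
    have h2 : algebraMap Q L (psi2 k N m n (.inl x)) = lw (m + n) (uP p) (vP p) x :=
      map_gl (algebraMap Q L) (m + n) x
    rwa [h2] at this
  have e2 : ∀ x, D (mw (m + 2 * n) (uP p) (vP p) (cP K2 p) x) = 0 := by
    intro x
    have := h (.inr x)
    have h2 : algebraMap Q L (psi2 k N m n (.inr x)) =
        mw (m + 2 * n) (uP p) (vP p) (cP K2 p) x := map_gm K2 (algebraMap Q L) (m + 2 * n) x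
    rwa [h2] at this
  have hw : wdg (uP p) (vP p) ≠ 0 := by
    intro h0
    apply lam_ne (k := k) (m := m) (n := n) hN
    apply (IsFractionRing.injective Q L)
    rw [map_gl, map_zero]
    unfold lw
    show (wdg (uP p) (vP p) _).coeff _ = 0
    rw [h0]
    rfl
  obtain ⟨D', hD'⟩ := toInt D
  have h3 := hD L N D' (uP p) (vP p)
    (qol fun j : Fin (2 * (n - m) + 1) => p (.inr (.inr ⟨0, j⟩))) hw (by
      intro s i
      rw [hD']
      by_cases hi : i < m + n + 1
      · exact e1 (s, ⟨i, hi⟩)
      · rw [Polynomial.coeff_eq_zero_of_natDegree_lt (by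
          have := wdg_nd hB s
          omega), map_zero]) (by
      intro t i
      rw [← cP2, hD']
      by_cases hi : i < m + 2 * n + 1
      · exact e2 (t, ⟨i, hi⟩)
      · rw [Polynomial.coeff_eq_zero_of_natDegree_lt (by
          have := cub_nd hB t
          omega), map_zero])
  obtain ⟨g1, g2, g3⟩ := h3
  simp only [hD'] at g1 g2 g3
  apply der_zero
  rintro (⟨i, j⟩ | ⟨i, j⟩ | ⟨i, j⟩)
  · have := g1 i j
    unfold uP at this
    rw [qol_coeff, dif_pos j.2] at this
    exact this
  · have := g2 i j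
    unfold vP at this
    rw [qol_coeff, dif_pos j.2] at this
    exact this
  · fin_cases i
    · have key : ∀ (x : Fin (2 * (n - m) + 1) → L) (j : Fin (2 * (n - m) + 1)),
          (qol x).coeff j = x j := fun x j => by rw [qol_coeff, dif_pos j.2]
      have e := key (fun j => p (.inr (.inr ⟨0, j⟩))) j
      exact (congrArg D e).symm.trans (g3 j)
    · exact j.elim0
    · exact j.elim0
    · exact j.elim0

/-! ### The count -/

open Classical in
theorem card_le {N m n a b : ℕ} (hma : m < a) (hab : a ≤ b) (he : a + b = m + n) :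
    Fintype.card (P1 N a b (ncS a b (m + 2 * n)) hab) ≤
      Fintype.card (Px (N + 2) m n (nc2 m n)) := by
  rw [Fintype.card_coe, Finset.card_compl]
  unfold FX
  rw [Finset.card_map, Finset.card_univ]
  simp only [Fintype.card_sum, Fintype.card_prod, Fintype.card_sigma, Fintype.card_fin,
    Fin.sum_univ_four]
  have h0 : ncS a b (m + 2 * n) 0 = m + 2 * n + 1 - 3 * a := by simp [ncS]
  have h1 : ncS a b (m + 2 * n) 1 = m + 2 * n + 1 - (2 * a + b) := by simp [ncS]
  have h2 : ncS a b (m + 2 * n) 2 = m + 2 * n + 1 - (a + 2 * b) := by simp [ncS]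
  have h3 : ncS a b (m + 2 * n) 3 = m + 2 * n + 1 - 3 * b := by simp [ncS]
  have g0 : nc2 m n 0 = 2 * (n - m) + 1 := rfl
  have g1 : nc2 m n 1 = 0 := rfl
  have g2 : nc2 m n 2 = 0 := rfl
  have g3 : nc2 m n 3 = 0 := rfl
  rw [h0, h1, h2, h3, g0, g1, g2, g3]
  have hmul : (N + 2) * (a + 1) + (N + 2) * (b + 1) = (N + 2) * (m + 1) + (N + 2) * (n + 1) := by
    have : (N + 2) * (a + 1) + (N + 2) * (b + 1) = (N + 2) * (a + b + 2) := by ring
    rw [this, he]
    ring
  generalize (N + 2) * (a + 1) = A1 at *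
  generalize (N + 2) * (b + 1) = A2 at *
  generalize (N + 2) * (m + 1) = A3 at *
  generalize (N + 2) * (n + 1) = A4 at *
  split_ifs with hh <;> omega

/-! ### The conclusion -/

theorem done (h1 : StmTr1) (h2 : StmDer) (h3 : StmNorm) (h4 : StmSep) (_h5 : StmMem) :
    StmTr := by
  classical
  intro k _ _ _ N m n a b hN hma hab he H
  have : Infinite k := IsAlgClosed.instInfinite
  have hmn : m ≤ n := by omega
  obtain ⟨N', rfl⟩ := Nat.exists_eq_add_of_le' hN
  have hB := h1 k (Sx (N' + 1 + 2) (m + n) (m + 2 * n)) (P1 (N' + 1) a b (ncS a b (m + 2 * n)) hab)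
    (Px (N' + 1 + 2) m n (nc2 m n)) (psi1 k (N' + 1) a b (m + n) (m + 2 * n) hab)
    (psi2 k (N' + 1 + 2) m n) (card_le hma hab he) (fun D hD => der2 h2 hN hmn D hD)
    (fun F hF => stepA hN hmn H F ((norm_iff h3 hab F).1 hF))
  obtain ⟨R, hR⟩ := par2 (k := k) hN hmn
  obtain ⟨γ2, hγ2⟩ := hR.irreducible.1
  have hne : (Strat k (N' + 3) (m + n) (m + 2 * n) a b).Nonempty := by
    rw [Set.nonempty_iff_ne_empty]
    intro h0
    rw [h0, closure_empty] at H
    exact H hγ2
  obtain ⟨γ, hγ⟩ := hne
  have hcl : γ ∈ closure (Strat k (N' + 3) (m + n) (m + 2 * n) m n) := by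
    rw [mem_closure_iff']
    intro r Q hQ hQ0
    obtain ⟨u, v, c, hBd, _, hγ'⟩ := hγ
    have e1 : MvPolynomial.aeval (gc k K2 (N' + 3) m n (nc2 m n) (m + n) (m + 2 * n)) Q = 0 := by
      rw [← hR.vanish hQ]
      intro γ' hγ''
      apply hQ0
      obtain ⟨u', v', f, b1, b2, b3⟩ := hγ''
      exact ⟨u', v', _, b1, b2, b3⟩
    set F : MvPolynomial (Sx (N' + 1 + 2) (m + n) (m + 2 * n)) k := MvPolynomial.aeval
      (fun y : (Sg (N' + 3) × Fin (m + n + 1)) × (Ta (N' + 3) × Fin (m + 2 * n + 1)) =>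
        (MvPolynomial.X (.inl y.1) * MvPolynomial.X (.inr y.2) :
          MvPolynomial (Sx (N' + 1 + 2) (m + n) (m + 2 * n)) k)) Q with hFdef
    have e2 : MvPolynomial.aeval (psi2 k (N' + 1 + 2) m n) F = 0 := by
      apply MvPolynomial.funext
      intro p
      rw [map_zero, eval_aeval, eval_psi2, hFdef, eval_aeval]
      have e3 := congrArg (MvPolynomial.eval p) e1
      rw [eval_aeval, map_zero] at e3
      simp only [eval_gc] at e3
      rw [← e3]
      congr 2
      funext y
      rw [map_mul, MvPolynomial.eval_X, MvPolynomial.eval_X]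
      rfl
    have e4 := (full_iff F).1 ((norm_iff h3 hab F).1 (hB F e2)) u v c hBd
    rw [hFdef, eval_aeval] at e4
    rw [← zero_iff hγ' hQ, ← e4]
    congr 2
    funext y
    rw [map_mul, MvPolynomial.eval_X, MvPolynomial.eval_X]
    rfl
  have := h4 k (N' + 3) (m + n) (m + 2 * n) a b m n he hab rfl hmn γ hγ hcl
  omega

end

end Pool.Agent.Y442.MC
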