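import Pool.Agent.Y198.MC.Stm
import Pool.Agent.Y166.GM.Strata

/-!
# Parametrised sets of curves
-/

set_option autoImplicit false
set_option linter.unusedSectionVars false
set_option linter.deprecated false

namespace Pool.Agent.Y442.MC

open Pool.Agent.Y166.GM Pool.Agent.Y166.SM Pool.Agent.Y198.MC

/-! ### Sets parametrised by a dense part of an affine space -/

section
variable {k : Type} [Field k] {σ P : Type}

/-- The set `S` is the image of the affine space under `Φ`, and the points where `R` does not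
vanish are mapped to `S`. -/
structure IsPar (S : Set (PP k σ)) (Φ : σ → MvPolynomial P k) (R : MvPolynomial P k) : Prop where
  ne : R ≠ 0
  pt : ∀ c : P → k, MvPolynomial.eval c R ≠ 0 → ∃ γ ∈ S, Rep γ (fun s => MvPolynomial.eval c (Φ s))
  par : ∀ γ ∈ S, ∃ c : P → k, Rep γ (fun s => MvPolynomial.eval c (Φ s))

theorem eval_aeval (Φ : σ → MvPolynomial P k) (H : MvPolynomial σ k) (c : P → k) :
    MvPolynomial.eval c (MvPolynomial.aeval Φ H) =
      MvPolynomial.eval (fun s => MvPolynomial.eval c (Φ s)) H := by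
  have h : ((MvPolynomial.eval c).comp (MvPolynomial.aeval Φ : MvPolynomial σ k →ₐ[k] _).toRingHom)
      = MvPolynomial.eval (fun s => MvPolynomial.eval c (Φ s)) := by
    apply MvPolynomial.ringHom_ext
    · intro r
      simp
    · intro i
      simp
  exact congrArg (fun φ : MvPolynomial σ k →+* k => φ H) h

theorem exists_ne [Infinite k] {R : MvPolynomial P k} (hR : R ≠ 0) :
    ∃ c : P → k, MvPolynomial.eval c R ≠ 0 := by
  by_contra hcon
  push Not at hcon
  apply hR
  apply MvPolynomial.funext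
  intro c
  rw [hcon, map_zero]

theorem IsPar.pull_ne {S : Set (PP k σ)} {Φ : σ → MvPolynomial P k} {R : MvPolynomial P k}
    (h : IsPar S Φ R) {m : ℕ} {H : MvPolynomial σ k} (hH : H.IsHomogeneous m) {γ : PP k σ}
    (hγ : γ ∈ S) (hγH : MvPolynomial.eval γ.rep H ≠ 0) : MvPolynomial.aeval Φ H ≠ 0 := by
  intro h0
  obtain ⟨c, hc⟩ := h.par γ hγ
  apply hγH
  rw [← zero_iff hc hH, ← eval_aeval, h0, map_zero]

theorem IsPar.irreducible [Infinite k] {S : Set (PP k σ)} {Φ : σ → MvPolynomial P k}
    {R : MvPolynomial P k} (h : IsPar S Φ R) : IsIrreducible S := by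
  refine ⟨?_, ?_⟩
  · obtain ⟨c, hc⟩ := exists_ne h.ne
    obtain ⟨γ, hγ, _⟩ := h.pt c hc
    exact ⟨γ, hγ⟩
  · apply isPreirreducible_of
    rintro m n H H' hH hH' ⟨p, hp, hp0⟩ ⟨q, hq, hq0⟩
    obtain ⟨c, hc⟩ := exists_ne (mul_ne_zero (mul_ne_zero h.ne (h.pull_ne hH hp hp0))
      (h.pull_ne hH' hq hq0))
    rw [map_mul, map_mul, eval_aeval, eval_aeval] at hc
    obtain ⟨γ, hγ, h1⟩ := h.pt c (left_ne_zero_of_mul (left_ne_zero_of_mul hc))
    refine ⟨γ, hγ, ?_, ?_⟩
    · rw [Ne, ← zero_iff h1 hH]
      exact right_ne_zero_of_mul (left_ne_zero_of_mul hc)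
    · rw [Ne, ← zero_iff h1 hH']
      exact right_ne_zero_of_mul hc

theorem IsPar.vanish [Infinite k] {S : Set (PP k σ)} {Φ : σ → MvPolynomial P k}
    {R : MvPolynomial P k} (h : IsPar S Φ R) {m : ℕ} {H : MvPolynomial σ k}
    (hH : H.IsHomogeneous m) :
    (∀ γ ∈ S, MvPolynomial.eval γ.rep H = 0) ↔ MvPolynomial.aeval Φ H = 0 := by
  constructor
  · intro h0
    by_contra hne
    obtain ⟨c, hc⟩ := exists_ne (mul_ne_zero h.ne hne)
    rw [map_mul, eval_aeval] at hc
    obtain ⟨γ, hγ, h1⟩ := h.pt c (left_ne_zero_of_mul hc)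
    apply right_ne_zero_of_mul hc
    rw [zero_iff h1 hH]
    exact h0 γ hγ
  · intro h0 γ hγ
    by_contra h1
    exact h.pull_ne hH hγ h1 h0

end

/-! ### Polynomials from their coefficients -/

open Polynomial

section
variable {A : Type} [CommRing A]

/-- The polynomial with given coefficients. -/
noncomputable def qol {n : ℕ} (x : Fin n → A) : A[X] := ∑ j : Fin n, C (x j) * X ^ (j : ℕ)

theorem qol_coeff {n : ℕ} (x : Fin n → A) (i : ℕ) :
    (qol x).coeff i = if h : i < n then x ⟨i, h⟩ else 0 := by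
  unfold qol
  rw [Polynomial.finset_sum_coeff]
  split_ifs with h
  · rw [Finset.sum_eq_single ⟨i, h⟩]
    · rw [Polynomial.coeff_C_mul, Polynomial.coeff_X_pow, if_pos rfl, mul_one]
    · intro j _ hj
      rw [Polynomial.coeff_C_mul, Polynomial.coeff_X_pow, if_neg, mul_zero]
      intro h1
      exact hj (Fin.ext h1.symm)
    · intro h1
      exact absurd (Finset.mem_univ _) h1
  · apply Finset.sum_eq_zero
    intro j _
    rw [Polynomial.coeff_C_mul, Polynomial.coeff_X_pow, if_neg, mul_zero]
    intro h1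
    exact h (h1 ▸ j.2)

theorem qol_natDegree_lt {n : ℕ} (x : Fin n → A) (h : qol x ≠ 0) : (qol x).natDegree < n := by
  by_contra hcon
  apply h
  rw [← Polynomial.leadingCoeff_eq_zero, Polynomial.leadingCoeff, qol_coeff, dif_neg hcon]

theorem qol_natDegree_le {n : ℕ} (x : Fin (n + 1) → A) : (qol x).natDegree ≤ n := by
  by_cases h : qol x = 0
  · rw [h, Polynomial.natDegree_zero]
    exact Nat.zero_le _
  · have := qol_natDegree_lt x h
    omega

theorem qol_self {n : ℕ} (Q : A[X]) (h : ∀ i, n ≤ i → Q.coeff i = 0) :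
    qol (fun j : Fin n => Q.coeff j) = Q := by
  ext i
  rw [qol_coeff]
  split_ifs with hi
  · rfl
  · exact (h i (not_lt.1 hi)).symm

theorem qol_map {B : Type} [CommRing B] (f : A →+* B) {n : ℕ} (x : Fin n → A) :
    (qol x).map f = qol (fun j => f (x j)) := by
  unfold qol
  rw [Polynomial.map_sum]
  refine Finset.sum_congr rfl fun j _ => ?_
  rw [Polynomial.map_mul, Polynomial.map_C, Polynomial.map_pow, Polynomial.map_X]

end

/-! ### The parameters -/

/-- The parameters of the triples `(u, v, c)`. -/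
abbrev Px (N a b : ℕ) (nc : Fin 4 → ℕ) : Type :=
  (Fin N × Fin (a + 1)) ⊕ ((Fin N × Fin (b + 1)) ⊕ (Σ i : Fin 4, Fin (nc i)))

section
variable {A : Type} [CommRing A] {N a b : ℕ} {nc : Fin 4 → ℕ}

noncomputable def uP (c : Px N a b nc → A) (i : Fin N) : A[X] :=
  qol fun j : Fin (a + 1) => c (.inl (i, j))

noncomputable def vP (c : Px N a b nc → A) (i : Fin N) : A[X] :=
  qol fun j : Fin (b + 1) => c (.inr (.inl (i, j)))

noncomputable def cP (K : Fin 4 → ℕ) (c : Px N a b nc → A) (i : Fin 4) : A[X] :=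
  (K i : A[X]) + qol fun j : Fin (nc i) => c (.inr (.inr ⟨i, j⟩))

theorem uP_map {B : Type} [CommRing B] (f : A →+* B) (c : Px N a b nc → A) (i : Fin N) :
    (uP c i).map f = uP (fun x => f (c x)) i := qol_map f _

theorem vP_map {B : Type} [CommRing B] (f : A →+* B) (c : Px N a b nc → A) (i : Fin N) :
    (vP c i).map f = vP (fun x => f (c x)) i := qol_map f _

theorem cP_map {B : Type} [CommRing B] (f : A →+* B) (K : Fin 4 → ℕ) (c : Px N a b nc → A)
    (i : Fin 4) : (cP K c i).map f = cP K (fun x => f (c x)) i := by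
  unfold cP
  rw [Polynomial.map_add, qol_map, Polynomial.map_natCast]

/-- The coefficients of the Plücker coordinates. -/
noncomputable def lw (e : ℕ) (u v : Fin N → A[X]) : Sg N × Fin (e + 1) → A :=
  fun x => (wdg u v x.1).coeff x.2

/-- The coefficients of the symmetric tensor. -/
noncomputable def mw (d : ℕ) (u v : Fin N → A[X]) (c : Fin 4 → A[X]) : Ta N × Fin (d + 1) → A :=
  fun x => (cub u v c x.1).coeff x.2

theorem cv_eq (e d : ℕ) (u v : Fin N → A[X]) (c : Fin 4 → A[X]) :
    cv e d u v c = fun x => lw e u v x.1 * mw d u v c x.2 := rfl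

theorem wdg_map {B : Type} [CommRing B] (f : A →+* B) (u v : Fin N → A) (s : Sg N) :
    f (wdg u v s) = wdg (fun i => f (u i)) (fun i => f (v i)) s := by
  simp [wdg]

theorem cub_map {B : Type} [CommRing B] (f : A →+* B) (u v : Fin N → A) (c : Fin 4 → A)
    (t : Ta N) : f (cub u v c t) = cub (fun i => f (u i)) (fun i => f (v i)) (fun i => f (c i)) t := by
  simp [cub]

theorem lw_map {B : Type} [CommRing B] (f : A →+* B) (e : ℕ) (u v : Fin N → A[X])
    (x : Sg N × Fin (e + 1)) :
    f (lw e u v x) = lw e (fun i => (u i).map f) (fun i => (v i).map f) x := by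
  unfold lw
  rw [← Polynomial.coeff_map]
  congr 1
  exact wdg_map (Polynomial.mapRingHom f) u v x.1

theorem mw_map {B : Type} [CommRing B] (f : A →+* B) (d : ℕ) (u v : Fin N → A[X])
    (c : Fin 4 → A[X]) (x : Ta N × Fin (d + 1)) :
    f (mw d u v c x) = mw d (fun i => (u i).map f) (fun i => (v i).map f)
      (fun i => (c i).map f) x := by
  unfold mw
  rw [← Polynomial.coeff_map]
  congr 1
  exact cub_map (Polynomial.mapRingHom f) u v c x.1

end

section
variable (k : Type) [Field k] {N a b : ℕ} {nc : Fin 4 → ℕ} (K : Fin 4 → ℕ)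

/-- The generic Plücker coordinates. -/
noncomputable def gl (N a b : ℕ) (nc : Fin 4 → ℕ) (e : ℕ) (x : Sg N × Fin (e + 1)) :
    MvPolynomial (Px N a b nc) k := lw e (uP MvPolynomial.X) (vP MvPolynomial.X) x

/-- The generic symmetric tensor. -/
noncomputable def gm (N a b : ℕ) (nc : Fin 4 → ℕ) (d : ℕ) (x : Ta N × Fin (d + 1)) :
    MvPolynomial (Px N a b nc) k :=
  mw d (uP MvPolynomial.X) (vP MvPolynomial.X) (cP K MvPolynomial.X) x

/-- The generic curve. -/
noncomputable def gc (N a b : ℕ) (nc : Fin 4 → ℕ) (e d : ℕ)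
    (x : (Sg N × Fin (e + 1)) × (Ta N × Fin (d + 1))) : MvPolynomial (Px N a b nc) k :=
  gl k N a b nc e x.1 * gm k K N a b nc d x.2

variable {k}

theorem map_gl {B : Type} [CommRing B] (f : MvPolynomial (Px N a b nc) k →+* B) (e : ℕ)
    (x : Sg N × Fin (e + 1)) : f (gl k N a b nc e x) =
      lw e (uP fun p => f (MvPolynomial.X p)) (vP fun p => f (MvPolynomial.X p)) x := by
  unfold gl
  rw [lw_map]
  simp only [uP_map, vP_map]

theorem map_gm {B : Type} [CommRing B] (f : MvPolynomial (Px N a b nc) k →+* B) (d : ℕ)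
    (x : Ta N × Fin (d + 1)) : f (gm k K N a b nc d x) =
      mw d (uP fun p => f (MvPolynomial.X p)) (vP fun p => f (MvPolynomial.X p))
        (cP K fun p => f (MvPolynomial.X p)) x := by
  unfold gm
  rw [mw_map]
  simp only [uP_map, vP_map, cP_map]

theorem eval_gl (e : ℕ) (x : Sg N × Fin (e + 1)) (c : Px N a b nc → k) :
    MvPolynomial.eval c (gl k N a b nc e x) = lw e (uP c) (vP c) x := by
  rw [map_gl]
  simp only [MvPolynomial.eval_X]

theorem eval_gm (d : ℕ) (x : Ta N × Fin (d + 1)) (c : Px N a b nc → k) :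
    MvPolynomial.eval c (gm k K N a b nc d x) = mw d (uP c) (vP c) (cP K c) x := by
  rw [map_gm]
  simp only [MvPolynomial.eval_X]

theorem eval_gc (e d : ℕ) (x : (Sg N × Fin (e + 1)) × (Ta N × Fin (d + 1)))
    (c : Px N a b nc → k) : MvPolynomial.eval c (gc k K N a b nc e d x) =
      cv e d (uP c) (vP c) (cP K c) x := by
  unfold gc
  rw [map_mul, eval_gl, eval_gm]
  rfl

end

/-! ### Curves without base points -/

section
variable {k : Type} [Field k]

/-- The polynomial of a row of coefficients, as a linear map. -/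
noncomputable def rowL {σ : Type} {d : ℕ} (i : σ) : (σ × Fin (d + 1) → k) →ₗ[k] k[X] where
  toFun v := pol fun l => v (i, l)
  map_add' v w := pol_add _ _
  map_smul' a v := by
    rw [RingHom.id_apply, Polynomial.smul_eq_C_mul]
    exact pol_smul _ _

/-- The condition that there is no common zero is implied by an open condition. -/
theorem noZero_open {σ : Type} [Fintype σ] [DecidableEq σ] {d : ℕ} (s₁ s₂ : σ)
    (v0 : σ × Fin (d + 1) → k) (hv1 : (pol fun l => v0 (s₁, l)) = 1)
    (hv2 : (pol fun l => v0 (s₂, l)) = X ^ d) :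
    ∃ P : MvPolynomial (σ × Fin (d + 1)) k,
      MvPolynomial.eval v0 P ≠ 0 ∧ ∀ v, MvPolynomial.eval v P ≠ 0 → NoZero v := by
  by_cases hd0 : d = 0
  · subst hd0
    refine ⟨MvPolynomial.X (s₁, 0), ?_, ?_⟩
    · rw [MvPolynomial.eval_X]
      have := pol_coeff (fun l => v0 (s₁, l)) 0
      rw [hv1, Fin.val_zero, Polynomial.coeff_one_zero] at this
      rw [← this]
      exact one_ne_zero
    · intro v hv s _ h0
      rw [MvPolynomial.eval_X] at hv
      apply hv
      have h1 := congrFun h0 s₁
      unfold forms at h1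
      simpa using h1
  obtain ⟨m, P, _, h1, h2⟩ := sepPair (k := k) (rowL (d := d) s₁) (rowL (d := d) s₂)
    (d - 1) (d - 1) v0 (by
      intro A B hA _ h
      have e1 : rowL s₁ v0 = 1 := hv1
      have e2 : rowL s₂ v0 = X ^ d := hv2
      rw [e1, e2] at h
      exact aux_inj (d - 1) d (by omega) A B hA h)
  refine ⟨P, h1, fun v hv s hs h0 => hv (h2 v ?_)⟩
  set F : k[X] := rowL s₁ v with hF
  set G : k[X] := rowL s₂ v with hG
  by_cases hFG : F = 0 ∧ G = 0
  · refine ⟨1, 0, ?_, ?_, Or.inl one_ne_zero, ?_⟩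
    · rw [Polynomial.natDegree_one]; exact Nat.zero_le _
    · rw [Polynomial.natDegree_zero]; exact Nat.zero_le _
    · rw [hFG.1, hFG.2]; ring
  have hFG' : G ≠ 0 ∨ -F ≠ 0 := by
    by_contra hcon
    push Not at hcon
    exact hFG ⟨neg_eq_zero.1 hcon.2, hcon.1⟩
  have hFd : F.natDegree ≤ d := pol_natDegree _
  have hGd : G.natDegree ≤ d := pol_natDegree _
  by_cases hs1 : s 1 = 0
  · have hs0 : s 0 ≠ 0 := by
      intro h
      apply hs
      funext i
      fin_cases i
      · exact h
      · exact hs1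
    have hcoef : ∀ i : σ, (pol fun l => v (i, l)).natDegree ≤ d - 1 := by
      intro i
      have e1 := congrFun h0 i
      rw [forms_inf _ _ hs1] at e1
      have e2 : v (i, Fin.last d) = 0 := by
        rcases mul_eq_zero.1 e1 with h | h
        · exact h
        · exact absurd (eq_zero_of_pow_eq_zero h) hs0
      have e3 : (pol fun l => v (i, l)).coeff d = 0 := by
        have := pol_coeff (fun l => v (i, l)) (Fin.last d)
        rw [Fin.val_last] at this
        rw [this]
        exact e2
      have e4 : (pol fun l => v (i, l)).natDegree ≤ d := pol_natDegree _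
      by_contra hcon
      have e5 : (pol fun l => v (i, l)).natDegree = d := by omega
      have e6 : (pol fun l => v (i, l)) ≠ 0 := by
        intro h
        rw [h, Polynomial.natDegree_zero] at e5
        omega
      apply e6
      rw [← Polynomial.leadingCoeff_eq_zero, Polynomial.leadingCoeff, e5]
      exact e3
    refine ⟨G, -F, hcoef _, ?_, hFG', by ring⟩
    rw [Polynomial.natDegree_neg]
    exact hcoef _
  · set t := s 0 / s 1 with ht
    have hroot : ∀ i : σ, (pol fun l => v (i, l)).eval t = 0 := by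
      intro i
      have e1 := congrFun h0 i
      rw [forms_aff _ _ hs1] at e1
      rcases mul_eq_zero.1 e1 with h | h
      · exact absurd (eq_zero_of_pow_eq_zero h) hs1
      · exact h
    obtain ⟨F1, hF1⟩ := Polynomial.dvd_iff_isRoot.2 (hroot s₁)
    obtain ⟨G1, hG1⟩ := Polynomial.dvd_iff_isRoot.2 (hroot s₂)
    have hF1' : F = (X - C t) * F1 := hF1
    have hG1' : G = (X - C t) * G1 := hG1
    have hdeg : ∀ H H1 : k[X], H.natDegree ≤ d → H = (X - C t) * H1 → H1.natDegree ≤ d - 1 := by
      intro H H1 hH h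
      by_cases h1 : H1 = 0
      · rw [h1, Polynomial.natDegree_zero]; exact Nat.zero_le _
      · rw [h, Polynomial.natDegree_mul (Polynomial.X_sub_C_ne_zero t) h1,
          Polynomial.natDegree_X_sub_C] at hH
        omega
    refine ⟨G1, -F1, hdeg G G1 hGd hG1', ?_, ?_, ?_⟩
    · rw [Polynomial.natDegree_neg]
      exact hdeg F F1 hFd hF1'
    · rcases hFG' with h | h
      · left
        intro h3
        apply h
        rw [hG1', h3, mul_zero]
      · right
        intro h3
        apply h
        rw [neg_eq_zero] at h3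
        rw [hF1', h3, mul_zero, neg_zero]
    · rw [hF1', hG1']
      ring

end

end Pool.Agent.Y442.MC
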